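import Pool.Agent.H57.CM.Targets
import Pool.Agent.H4.CN.FRA
import Pool.Agent.H95.CN.AMD

/-!
# Row EFR of the board chm_modules: free classes with a chain of equivalence relations have limits
-/

set_option autoImplicit false
set_option linter.unusedVariables false

namespace Pool.Agent.H4.CM

open Pool.Agent.H68.BP Pool.Agent.H58.SF Pool.Agent.H53.NR
open Pool.Agent.H53.GC (strOn sigOf)
open Pool.Agent.H57.AR (tp ty Ty)
open Pool.Agent.H57.LH (Hmg tp_iff strOn_on)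
open Pool.Agent.H57.CN (KH Lim AgO)
open Pool.Agent.H4.CN.FRA (str_ext)
open Pool.Agent.H72.CH Pool.Agent.H57.CM
open Function

/-! ### Amalgamation of levels -/

section ult

variable {W : Type} {m : ℕ} {w : W → W → ℕ}

theorem ukey {A B : Set W} (hself : ∀ x, w x x = m)
    (hA : ∀ x ∈ A, ∀ y ∈ A, ∀ z ∈ A, min (w x y) (w y z) ≤ w x z)
    (hB : ∀ x ∈ B, ∀ y ∈ B, ∀ z ∈ B, min (w x y) (w y z) ≤ w x z)
    (hAB : ∀ x y, 1 ≤ w x y → (x ∈ A ∧ y ∈ A) ∨ (x ∈ B ∧ y ∈ B)) {j : ℕ} (hj : 1 ≤ j)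
    (hjm : j ≤ m) {x y : W} (hx : x ∈ A)
    (h : Relation.ReflTransGen (fun x y => j ≤ w x y) x y) :
    (y ∈ A → j ≤ w x y) ∧ (y ∈ B → ∃ c, c ∈ A ∧ c ∈ B ∧ j ≤ w x c ∧ j ≤ w c y) := by
  induction h with
  | refl =>
    exact ⟨fun _ => by rw [hself]; exact hjm,
      fun hxB => ⟨x, hx, hxB, by rw [hself]; exact hjm, by rw [hself]; exact hjm⟩⟩
  | @tail y z _ hyz ih =>
    rcases hAB _ _ (hj.trans hyz) with ⟨hy, hz⟩ | ⟨hy, hz⟩
    · have h1 := ih.1 hy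
      have h2 : j ≤ w x z := (le_min h1 hyz).trans (hA x hx y hy z hz)
      exact ⟨fun _ => h2, fun hzB => ⟨z, hz, hzB, h2, by rw [hself]; exact hjm⟩⟩
    · obtain ⟨c, hcA, hcB, h1, h2⟩ := ih.2 hy
      have h3 : j ≤ w c z := (le_min h2 hyz).trans (hB c hcB _ hy _ hz)
      exact ⟨fun hzA => (le_min h1 h3).trans (hA x hx c hcA _ hzA),
        fun _ => ⟨c, hcA, hcB, h1, h3⟩⟩

theorem ulta {A B : Set W} (hle : ∀ x y, w x y ≤ m) (hself : ∀ x, w x x = m)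
    (hsym : ∀ x y, w x y = w y x)
    (hA : ∀ x ∈ A, ∀ y ∈ A, ∀ z ∈ A, min (w x y) (w y z) ≤ w x z)
    (hB : ∀ x ∈ B, ∀ y ∈ B, ∀ z ∈ B, min (w x y) (w y z) ≤ w x z)
    (hAB : ∀ x y, 1 ≤ w x y → (x ∈ A ∧ y ∈ A) ∨ (x ∈ B ∧ y ∈ B))
    (heq : ∀ x y, w x y = m → x = y) (hm : 1 ≤ m) (hall : ∀ x, x ∈ A ∨ x ∈ B) :
    ∃ lam : W → W → ℕ, Lev m lam ∧ (∀ x ∈ A, ∀ y ∈ A, lam x y = w x y) ∧
      ∀ x ∈ B, ∀ y ∈ B, lam x y = w x y := by
  classical
  obtain ⟨E, hE⟩ : ∃ E : ℕ → W → W → Prop,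
      E = fun j => Relation.ReflTransGen (fun x y => j ≤ w x y) := ⟨_, rfl⟩
  obtain ⟨lam, hlam⟩ : ∃ lam : W → W → ℕ,
      lam = fun x y => Nat.findGreatest (fun j => E j x y) m := ⟨_, rfl⟩
  have hEs : ∀ j x y, E j x y → E j y x := by
    intro j x y h
    rw [hE] at h ⊢
    induction h with
    | refl => exact Relation.ReflTransGen.refl
    | @tail b c _ h1 ih =>
      have h2 : j ≤ w c b := by
        rw [hsym]
        exact h1
      exact Relation.ReflTransGen.head h2 ih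
  have hEm : ∀ i j x y, i ≤ j → E j x y → E i x y := by
    intro i j x y hij h
    rw [hE] at h ⊢
    exact Relation.ReflTransGen.mono (fun a b (hab : j ≤ w a b) => hij.trans hab) _ _ h
  have hE1 : ∀ j x y, j ≤ w x y → E j x y := by
    intro j x y h
    rw [hE]
    exact Relation.ReflTransGen.single h
  have hl : ∀ j ≤ m, ∀ x y, (j ≤ lam x y ↔ E j x y) := by
    intro j hj x y
    rw [hlam]
    constructor
    · intro h
      exact hEm _ _ _ _ h (Nat.findGreatest_spec (P := fun j => E j x y) (Nat.zero_le m)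
        (hE1 0 x y (Nat.zero_le _)))
    · intro h
      exact Nat.le_findGreatest (P := fun j => E j x y) hj h
  have hlle : ∀ x y, lam x y ≤ m := by
    intro x y
    rw [hlam]
    exact Nat.findGreatest_le m
  have hAB' : ∀ x y, 1 ≤ w x y → (x ∈ B ∧ y ∈ B) ∨ (x ∈ A ∧ y ∈ A) := fun x y h => (hAB x y h).symm
  have same : ∀ x y, (∀ j, 1 ≤ j → j ≤ m → E j x y → j ≤ w x y) → lam x y = w x y := by
    intro x y h
    refine le_antisymm ?_ ((hl _ (hle x y) x y).2 (hE1 _ _ _ le_rfl))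
    rcases Nat.eq_zero_or_pos (lam x y) with h0 | h0
    · rw [h0]
      exact Nat.zero_le _
    · exact h _ h0 (hlle x y) ((hl _ (hlle x y) x y).1 le_rfl)
  refine ⟨lam, ⟨⟨hlle, fun x => ?_, fun x y => ?_, fun x y z => ?_⟩, fun x y h => ?_⟩,
    fun x hx y hy => ?_, fun x hx y hy => ?_⟩
  · exact le_antisymm (hlle x x) ((hl m le_rfl x x).2 (hE1 _ _ _ (hself x).ge))
  · exact le_antisymm ((hl _ (hlle x y) y x).2 (hEs _ _ _ ((hl _ (hlle x y) x y).1 le_rfl)))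
      ((hl _ (hlle y x) x y).2 (hEs _ _ _ ((hl _ (hlle y x) y x).1 le_rfl)))
  · have h0 : min (lam x y) (lam y z) ≤ m := (min_le_left _ _).trans (hlle x y)
    have h1 := (hl _ h0 x y).1 (min_le_left _ _)
    have h2 := (hl _ h0 y z).1 (min_le_right _ _)
    refine (hl _ h0 x z).2 ?_
    rw [hE] at h1 h2 ⊢
    exact h1.trans h2
  · have h1 := (hl m le_rfl x y).1 h.ge
    rw [hE] at h1
    have e : ∀ a b, m ≤ w a b → a = b := fun a b hab => heq a b (le_antisymm (hle a b) hab)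
    rcases hall x with hx | hx
    · have h2 := ukey hself hA hB hAB hm le_rfl hx h1
      rcases hall y with hy | hy
      · exact e _ _ (h2.1 hy)
      · obtain ⟨c, -, -, h3, h4⟩ := h2.2 hy
        exact (e _ _ h3).trans (e _ _ h4)
    · have h2 := ukey hself hB hA hAB' hm le_rfl hx h1
      rcases hall y with hy | hy
      · obtain ⟨c, -, -, h3, h4⟩ := h2.2 hy
        exact (e _ _ h3).trans (e _ _ h4)
      · exact e _ _ (h2.1 hy)
  · refine same x y fun j hj hjm h => ?_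
    rw [hE] at h
    exact (ukey hself hA hB hAB hj hjm hx h).1 hy
  · refine same x y fun j hj hjm h => ?_
    rw [hE] at h
    exact (ukey hself hB hA hAB' hj hjm hx h).1 hy

end ult

/-! ### The structure with levels -/

section cst

variable {V W X : Type} {τ : Sig} {m : ℕ}

theorem cst_pull (𝕏 : Str τ X) (lam : X → X → ℕ) (f : W → X) :
    pull (cst m 𝕏 lam) f = cst m (pull 𝕏 f) (fun a b => lam (f a) (f b)) := by
  have h1 : ∀ (s : Fin τ.m ⊕ Fin m) (z : CAr τ m s → W), cstR m 𝕏 lam s (fun p => f (z p)) ↔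
      cstR m (pull 𝕏 f) (fun a b => lam (f a) (f b)) s z := by
    intro s z
    cases s <;> exact Iff.rfl
  refine str_ext fun l z => ?_
  exact h1 _ _

theorem lev_eq {a b : ℕ} (ha : a ≤ m) (hb : b ≤ m) (h : ∀ j : Fin m, a = j ↔ b = j) : a = b := by
  rcases lt_or_eq_of_le ha with h1 | h1
  · exact ((h ⟨a, h1⟩).1 rfl).symm
  · rcases lt_or_eq_of_le hb with h2 | h2
    · exact (h ⟨b, h2⟩).2 rfl
    · rw [h1, h2]

theorem cst_inj {𝕏 𝕐 : Str τ X} {lam mu : X → X → ℕ} (h1 : ∀ x y, lam x y ≤ m)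
    (h2 : ∀ x y, mu x y ≤ m) (h : cst m 𝕏 lam = cst m 𝕐 mu) : 𝕏 = 𝕐 ∧ lam = mu := by
  have h3 := (strOn_on (Ar := CAr τ m) (R := cstR m 𝕏 lam) (R' := cstR m 𝕐 mu)
    (x := (id : X → X)) (y := (id : X → X)) Set.univ).1 (fun l z _ => by
      have h4 := congrFun (congrFun h l) z
      exact iff_of_eq h4)
  refine ⟨str_ext fun l z => h3 (Sum.inl l) z (fun _ => trivial),
    funext fun x => funext fun y => lev_eq (h1 x y) (h2 x y) fun j => ?_⟩
  exact h3 (Sum.inr j) ![x, y] (fun _ => trivial)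

theorem LStr.pullB {𝕏 : Str τ X} {lam : X → X → ℕ} (h : LStr m 𝕏 lam) {f : W → X}
    (hf : Injective f) : LStr m (pull 𝕏 f) (fun a b => lam (f a) (f b)) :=
  ⟨⟨⟨fun _ _ => h.lev.pl.le _ _, fun _ => h.lev.pl.self _, fun _ _ => h.lev.pl.sym _ _,
    fun _ _ _ => h.lev.pl.ult _ _ _⟩, fun _ _ hab => hf (h.lev.eq _ _ hab)⟩,
    fun l z hz => Injective.of_comp (f := f) (h.irr l _ hz)⟩

theorem Cop.pullB {Y : Cnf τ} {𝕏 : Str τ X} {lam : X → X → ℕ} {f : W → X}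
    (h : Cop Y (pull 𝕏 f) (fun a b => lam (f a) (f b))) : Cop Y 𝕏 lam := by
  obtain ⟨g, h1, h2⟩ := h
  exact ⟨fun a => f (g a), fun l x hx => h1 l x hx, h2⟩

/-- the class -/
def KF (m : ℕ) (F : Set (Cnf τ)) (X : Type) (𝕎 : Str (sigOf (Fin τ.m ⊕ Fin m) (CAr τ m)) X) :
    Prop :=
  ∃ (𝕏 : Str τ X) (lam : X → X → ℕ), LStr m 𝕏 lam ∧ (∀ Y ∈ F, ¬ Cop Y 𝕏 lam) ∧ 𝕎 = cst m 𝕏 lam

end cst

/-! ### The class is an amalgamation class -/

section kh

variable {τ : Sig} {m : ℕ} {F : Set (Cnf τ)}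

theorem kf_her (X Y : Type) (f : X → Y) (𝕐 : Str (sigOf (Fin τ.m ⊕ Fin m) (CAr τ m)) Y)
    (hf : Injective f) (h : KF m F Y 𝕐) : KF m F X (pull 𝕐 f) := by
  obtain ⟨𝕏, lam, h1, h2, rfl⟩ := h
  exact ⟨pull 𝕏 f, fun a b => lam (f a) (f b), LStr.pullB h1 hf,
    fun Y hY hc => h2 Y hY (Cop.pullB hc), cst_pull 𝕏 lam f⟩

theorem kf_one (hI : ∀ Y ∈ F, Ird Y ∧ 2 ≤ Y.1) :
    ∃ 𝕏 : Str (sigOf (Fin τ.m ⊕ Fin m) (CAr τ m)) Unit, KF m F Unit 𝕏 := by
  refine ⟨_, fun _ _ => False, fun _ _ => m, ⟨⟨⟨fun _ _ => le_rfl, fun _ => rfl, fun _ _ => rfl,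
    fun _ _ _ => min_le_left _ _⟩, fun _ _ _ => rfl⟩, fun _ _ h => h.elim⟩, fun Y hY hc => ?_, rfl⟩
  obtain ⟨f, h1, -⟩ := hc
  obtain ⟨h2, h3⟩ := hI Y hY
  obtain ⟨l, z, -, -, h4, -⟩ := h2 ⟨0, by omega⟩ ⟨1, by omega⟩ (by simp)
  exact h1 l z h4

theorem kf_amg (hm : 1 ≤ m) (hI : ∀ Y ∈ F, Ird Y ∧ 2 ≤ Y.1) (W : Type) (A B : Set W)
    (𝕏 𝕐 : Str (sigOf (Fin τ.m ⊕ Fin m) (CAr τ m)) W) (hall : ∀ x, x ∈ A ∨ x ∈ B)
    (hXA : KF m F A (pull 𝕏 Subtype.val)) (hYB : KF m F B (pull 𝕐 Subtype.val))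
    (hAg : AgO (A ∩ B) 𝕏 𝕐) :
    ∃ ℤ' : Str (sigOf (Fin τ.m ⊕ Fin m) (CAr τ m)) W, KF m F W ℤ' ∧ AgO A ℤ' 𝕏 ∧ AgO B ℤ' 𝕐 := by
  classical
  obtain ⟨𝔸, la, hA1, hA2, hA3⟩ := hXA
  obtain ⟨𝔹, lb, hB1, hB2, hB3⟩ := hYB
  -- agreement
  obtain ⟨iA, hiA⟩ : ∃ iA : ↥(A ∩ B) → A, iA = fun a => ⟨a.1, a.2.1⟩ := ⟨_, rfl⟩
  obtain ⟨iB, hiB⟩ : ∃ iB : ↥(A ∩ B) → B, iB = fun a => ⟨a.1, a.2.2⟩ := ⟨_, rfl⟩
  have h1 : pull (cst m 𝔸 la) iA = pull (cst m 𝔹 lb) iB := by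
    rw [← hA3, ← hB3, hiA, hiB]
    exact str_ext fun l z => hAg l (fun i => (z i : W)) fun i => (z i).2
  rw [cst_pull, cst_pull] at h1
  obtain ⟨h2, h3⟩ := cst_inj (fun x y => hA1.lev.pl.le _ _) (fun x y => hB1.lev.pl.le _ _) h1
  have hagr : ∀ l (z : Fin (τ.ar l) → A) (z' : Fin (τ.ar l) → B), (∀ i, (z i : W) = z' i) →
      (𝔸 l z ↔ 𝔹 l z') := by
    intro l z z' hz
    have h4 := congrFun (congrFun h2 l) (fun i => ⟨z i, (z i).2, by rw [hz]; exact (z' i).2⟩)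
    have h5 : (fun i => iA ⟨z i, (z i).2, by rw [hz]; exact (z' i).2⟩) = z := by
      rw [hiA]
    have h6 : (fun i => iB ⟨z i, (z i).2, by rw [hz]; exact (z' i).2⟩) = z' := by
      rw [hiB]
      exact funext fun i => Subtype.ext (hz i)
    have h7 : 𝔸 l (fun i => iA ⟨z i, (z i).2, by rw [hz]; exact (z' i).2⟩) =
        𝔹 l (fun i => iB ⟨z i, (z i).2, by rw [hz]; exact (z' i).2⟩) := h4
    rw [h5, h6] at h7
    exact iff_of_eq h7
  have lagr : ∀ (a b : A) (a' b' : B), (a : W) = a' → (b : W) = b' → la a b = lb a' b' := by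
    intro a b a' b' ha hb
    have h4 := congrFun (congrFun h3 ⟨a, a.2, by rw [ha]; exact a'.2⟩)
      ⟨b, b.2, by rw [hb]; exact b'.2⟩
    have h5 : iA ⟨a, a.2, by rw [ha]; exact a'.2⟩ = a := by rw [hiA]
    have h6 : iA ⟨b, b.2, by rw [hb]; exact b'.2⟩ = b := by rw [hiA]
    have h7 : iB ⟨a, a.2, by rw [ha]; exact a'.2⟩ = a' := by
      rw [hiB]
      exact Subtype.ext ha
    have h8 : iB ⟨b, b.2, by rw [hb]; exact b'.2⟩ = b' := by
      rw [hiB]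
      exact Subtype.ext hb
    simp only [h5, h6, h7, h8] at h4
    exact h4
  -- the weights
  obtain ⟨w, hw⟩ : ∃ w : W → W → ℕ, w = fun x y =>
      if h : x ∈ A ∧ y ∈ A then la ⟨x, h.1⟩ ⟨y, h.2⟩ else
        if h : x ∈ B ∧ y ∈ B then lb ⟨x, h.1⟩ ⟨y, h.2⟩ else 0 := ⟨_, rfl⟩
  have wA : ∀ (x y : W) (hx : x ∈ A) (hy : y ∈ A), w x y = la ⟨x, hx⟩ ⟨y, hy⟩ := by
    intro x y hx hy
    rw [hw]
    exact dif_pos ⟨hx, hy⟩
  have wB : ∀ (x y : W) (hx : x ∈ B) (hy : y ∈ B), w x y = lb ⟨x, hx⟩ ⟨y, hy⟩ := by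
    intro x y hx hy
    by_cases h : x ∈ A ∧ y ∈ A
    · rw [wA x y h.1 h.2]
      exact lagr _ _ _ _ rfl rfl
    · rw [hw]
      show dite _ _ _ = _
      rw [dif_neg h, dif_pos ⟨hx, hy⟩]
  have w0 : ∀ x y : W, ¬ (x ∈ A ∧ y ∈ A) → ¬ (x ∈ B ∧ y ∈ B) → w x y = 0 := by
    intro x y h h'
    rw [hw]
    show dite _ _ _ = _
    rw [dif_neg h, dif_neg h']
  have hAB : ∀ x y, 1 ≤ w x y → (x ∈ A ∧ y ∈ A) ∨ (x ∈ B ∧ y ∈ B) := by
    intro x y h
    by_contra hc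
    push Not at hc
    rw [w0 x y (fun h' => hc.1 h'.1 h'.2) (fun h' => hc.2 h'.1 h'.2)] at h
    omega
  obtain ⟨lam, hl, hlA, hlB⟩ := ulta (A := A) (B := B) (w := w) (m := m) (fun x y => by
      by_cases h : x ∈ A ∧ y ∈ A
      · rw [wA x y h.1 h.2]
        exact hA1.lev.pl.le _ _
      · by_cases h' : x ∈ B ∧ y ∈ B
        · rw [wB x y h'.1 h'.2]
          exact hB1.lev.pl.le _ _
        · rw [w0 x y h h']
          exact Nat.zero_le _) (fun x => by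
      rcases hall x with h | h
      · rw [wA x x h h]
        exact hA1.lev.pl.self _
      · rw [wB x x h h]
        exact hB1.lev.pl.self _) (fun x y => by
      by_cases h : x ∈ A ∧ y ∈ A
      · rw [wA x y h.1 h.2, wA y x h.2 h.1]
        exact hA1.lev.pl.sym _ _
      · by_cases h' : x ∈ B ∧ y ∈ B
        · rw [wB x y h'.1 h'.2, wB y x h'.2 h'.1]
          exact hB1.lev.pl.sym _ _
        · rw [w0 x y h h', w0 y x (fun k => h k.symm) (fun k => h' k.symm)]) (fun x hx y hy z hz => by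
      rw [wA x y hx hy, wA y z hy hz, wA x z hx hz]
      exact hA1.lev.pl.ult _ _ _) (fun x hx y hy z hz => by
      rw [wB x y hx hy, wB y z hy hz, wB x z hx hz]
      exact hB1.lev.pl.ult _ _ _) hAB (fun x y h => by
      rcases hAB x y (by omega) with h' | h'
      · rw [wA x y h'.1 h'.2] at h
        exact congrArg Subtype.val (hA1.lev.eq _ _ h)
      · rw [wB x y h'.1 h'.2] at h
        exact congrArg Subtype.val (hB1.lev.eq _ _ h)) hm hall
  -- the relations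
  obtain ⟨𝕎, h𝕎⟩ : ∃ 𝕎 : Str τ W, ∀ l z, 𝕎 l z ↔
      (∃ z' : Fin (τ.ar l) → A, (∀ i, (z' i : W) = z i) ∧ 𝔸 l z') ∨
      ∃ z' : Fin (τ.ar l) → B, (∀ i, (z' i : W) = z i) ∧ 𝔹 l z' :=
    ⟨fun l z => _, fun l z => Iff.rfl⟩
  have pA : pull 𝕎 (Subtype.val : A → W) = 𝔸 := by
    refine str_ext fun l z => ?_
    show 𝕎 l (fun i => (z i : W)) ↔ _
    rw [h𝕎]
    constructor
    · rintro (⟨z', hz, h⟩ | ⟨z', hz, h⟩)
      · have h4 : z' = z := funext fun i => Subtype.ext (hz i)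
        rw [← h4]
        exact h
      · exact (hagr l z z' fun i => (hz i).symm).2 h
    · exact fun h => Or.inl ⟨z, fun _ => rfl, h⟩
  have pB : pull 𝕎 (Subtype.val : B → W) = 𝔹 := by
    refine str_ext fun l z => ?_
    show 𝕎 l (fun i => (z i : W)) ↔ _
    rw [h𝕎]
    constructor
    · rintro (⟨z', hz, h⟩ | ⟨z', hz, h⟩)
      · exact (hagr l z' z fun i => hz i).1 h
      · have h4 : z' = z := funext fun i => Subtype.ext (hz i)
        rw [← h4]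
        exact h
    · exact fun h => Or.inr ⟨z, fun _ => rfl, h⟩
  have qA : (fun a b : A => lam a b) = la := by
    funext a b
    rw [hlA a a.2 b b.2, wA a b a.2 b.2]
  have qB : (fun a b : B => lam a b) = lb := by
    funext a b
    rw [hlB a a.2 b b.2, wB a b a.2 b.2]
  refine ⟨cst m 𝕎 lam, ⟨𝕎, lam, ⟨hl, fun l z hz => ?_⟩, fun Y hY hc => ?_, rfl⟩,
    fun l z hz => ?_, fun l z hz => ?_⟩
  · rcases (h𝕎 l z).1 hz with ⟨z', h4, h5⟩ | ⟨z', h4, h5⟩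
    · intro i j hij
      exact hA1.irr l z' h5 (Subtype.ext (by rw [h4, h4, hij]))
    · intro i j hij
      exact hB1.irr l z' h5 (Subtype.ext (by rw [h4, h4, hij]))
  · obtain ⟨f, hf, hf'⟩ := hc
    by_cases hfA : ∀ v, f v ∈ A
    · refine hA2 Y hY (Cop.pullB (f := fun a : A => a) ?_)
      refine ⟨fun v => ⟨f v, hfA v⟩, fun l x hx => ?_, fun a b => ?_⟩
      · have h4 := hf l x hx
        show 𝔸 l (fun i => ⟨f (x i), hfA (x i)⟩)
        rw [← pA]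
        exact h4
      · show la _ _ = _
        rw [← qA]
        exact hf' a b
    · by_cases hfB : ∀ v, f v ∈ B
      · refine hB2 Y hY (Cop.pullB (f := fun a : B => a) ?_)
        refine ⟨fun v => ⟨f v, hfB v⟩, fun l x hx => ?_, fun a b => ?_⟩
        · have h4 := hf l x hx
          show 𝔹 l (fun i => ⟨f (x i), hfB (x i)⟩)
          rw [← pB]
          exact h4
        · show lb _ _ = _
          rw [← qB]
          exact hf' a b
      · push Not at hfA hfB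
        obtain ⟨v, hv⟩ := hfA
        obtain ⟨v', hv'⟩ := hfB
        have hne : v ≠ v' := by
          intro h
          rw [← h] at hv'
          rcases hall (f v) with h4 | h4
          · exact hv h4
          · exact hv' h4
        obtain ⟨l, z, i, j, h4, h5, h6⟩ := (hI Y hY).1 v v' hne
        rcases (h𝕎 l _).1 (hf l z h4) with ⟨z', h7, -⟩ | ⟨z', h7, -⟩
        · apply hv
          rw [← h5, ← h7]
          exact (z' i).2
        · apply hv'
          rw [← h6, ← h7]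
          exact (z' j).2
  · have h4 : pull (cst m 𝕎 lam) (Subtype.val : A → W) = pull 𝕏 Subtype.val := by
      rw [cst_pull, pA, qA, hA3]
    exact iff_of_eq (congrFun (congrFun h4 l) fun i => ⟨z i, hz i⟩)
  · have h4 : pull (cst m 𝕎 lam) (Subtype.val : B → W) = pull 𝕐 Subtype.val := by
      rw [cst_pull, pB, qB, hB3]
    exact iff_of_eq (congrFun (congrFun h4 l) fun i => ⟨z i, hz i⟩)

theorem kf_KH (hm : 1 ≤ m) (hI : ∀ Y ∈ F, Ird Y ∧ 2 ≤ Y.1) : KH (KF m F) :=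
  ⟨fun X Y _ f 𝕐 hf h => kf_her X Y f 𝕐 hf h,
    fun W _ A B 𝕏 𝕐 hall hA hB hAg => kf_amg hm hI W A B 𝕏 𝕐 hall hA hB hAg, kf_one hI⟩

end kh

/-! ### The limit -/

section lim

theorem strOn_surj {S : Type} {Ar : S → Type} [Finite S] [∀ s, Finite (Ar s)] {Y : Type}
    (𝔻 : Str (sigOf S Ar) Y) : ∃ R : (s : S) → (Ar s → Y) → Prop, 𝔻 = strOn R := by
  refine ⟨fun s w => ∃ (l : Fin (sigOf S Ar).m) (h : (Finite.equivFin S).symm l = s),
    𝔻 l (fun i => w (h ▸ (Finite.equivFin (Ar ((Finite.equivFin S).symm l))).symm i)), ?_⟩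
  refine str_ext fun l x => ?_
  have e : ∀ i, x (Finite.equivFin (Ar ((Finite.equivFin S).symm l))
      ((Finite.equivFin (Ar ((Finite.equivFin S).symm l))).symm i)) = x i := fun i => by
    rw [Equiv.apply_symm_apply]
  constructor
  · intro h
    refine ⟨l, rfl, ?_⟩
    show 𝔻 l (fun i => x (Finite.equivFin (Ar ((Finite.equivFin S).symm l))
      ((Finite.equivFin (Ar ((Finite.equivFin S).symm l))).symm i)))
    simp only [e]
    exact h
  · rintro ⟨l', h, h'⟩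
    obtain rfl := (Finite.equivFin S).symm.injective h
    have h2 : 𝔻 l' (fun i => x (Finite.equivFin (Ar ((Finite.equivFin S).symm l'))
      ((Finite.equivFin (Ar ((Finite.equivFin S).symm l'))).symm i))) := h'
    simp only [e] at h2
    exact h2

theorem below {J : Type} [Finite J] (z : J → ℕ) : ∃ (N : ℕ) (z' : J → Fin N), z = fun i => (z' i : ℕ) := by
  obtain ⟨b, hb⟩ := (Set.finite_range z).bddAbove
  exact ⟨b + 1, fun i => ⟨z i, Nat.lt_succ_of_le (hb ⟨i, rfl⟩)⟩, rfl⟩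

theorem pf_EFR : T_EFR := by
  classical
  intro τ m F hm har hF hI
  have hK := kf_KH hm hI
  obtain ⟨𝔻, hL⟩ := Pool.Agent.H4.CN.FRA.pf_FRA _ _ hK
  obtain ⟨R, hR⟩ := strOn_surj 𝔻
  obtain ⟨𝔹, h𝔹⟩ : ∃ 𝔹 : Str τ ℕ, 𝔹 = fun l z => R (Sum.inl l) z := ⟨_, rfl⟩
  obtain ⟨lv, hlv⟩ : ∃ lv : ℕ → ℕ → ℕ, lv = fun x y =>
      if h : ∃ j : Fin m, R (Sum.inr j) (![x, y] : Fin 2 → ℕ) then ((Classical.choose h : Fin m) : ℕ)
        else m := ⟨_, rfl⟩
  -- finite substructures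
  have key : ∀ (X : Type) [Finite X] (f : X → ℕ), Injective f →
      LStr m (pull 𝔹 f) (fun a b => lv (f a) (f b)) ∧
      (∀ Y ∈ F, ¬ Cop Y (pull 𝔹 f) (fun a b => lv (f a) (f b))) ∧
      pull 𝔻 f = cst m (pull 𝔹 f) (fun a b => lv (f a) (f b)) := by
    intro X _ f hf
    obtain ⟨𝕏, lam, h1, h2, h3⟩ := hL.age X f hf
    have h4 := (strOn_on (Ar := CAr τ m) (R := R) (R' := cstR m 𝕏 lam)
      (x := f) (y := (id : X → X)) Set.univ).1 (fun l z _ => by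
        rw [← hR]
        exact iff_of_eq (congrFun (congrFun h3 l) z))
    have h5 : pull 𝔹 f = 𝕏 := by
      refine str_ext fun l z => ?_
      rw [h𝔹]
      exact h4 (Sum.inl l) z (fun _ => trivial)
    have h6 : (fun a b => lv (f a) (f b)) = lam := by
      funext a b
      have h7 : ∀ j : Fin m, R (Sum.inr j) (![f a, f b] : Fin 2 → ℕ) ↔ lam a b = j := by
        intro j
        have h8 := h4 (Sum.inr j) (![a, b] : Fin 2 → X) (fun _ => trivial)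
        have h9 : (fun i => f ((![a, b] : Fin 2 → X) i)) = (![f a, f b] : Fin 2 → ℕ) := by
          funext i
          fin_cases i <;> rfl
        have h10 : R (Sum.inr j) (fun i => f ((![a, b] : Fin 2 → X) i)) ↔ lam a b = j := h8
        rw [h9] at h10
        exact h10
      rw [hlv]
      show dite _ _ _ = _
      by_cases h : ∃ j : Fin m, R (Sum.inr j) (![f a, f b] : Fin 2 → ℕ)
      · rw [dif_pos h]
        exact ((h7 _).1 (Classical.choose_spec h)).symm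
      · rw [dif_neg h]
        rcases lt_or_eq_of_le (h1.lev.pl.le a b) with h8 | h8
        · exact absurd ⟨⟨_, h8⟩, (h7 ⟨_, h8⟩).2 rfl⟩ h
        · exact h8.symm
    rw [h5, h6]
    exact ⟨h1, h2, h3⟩
  have keyN : ∀ N : ℕ, _ := fun N => key (Fin N) (fun i => (i : ℕ)) Fin.val_injective
  have hD : 𝔻 = cst m 𝔹 lv := by
    refine str_ext fun l z => ?_
    obtain ⟨N, z', rfl⟩ := below z
    have h1 := (keyN N).2.2
    rw [← cst_pull] at h1
    exact iff_of_eq (congrFun (congrFun h1 l) z')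
  have hS : LStr m 𝔹 lv := by
    have lt3 : ∀ x y z : ℕ, x < x + y + z + 1 ∧ y < x + y + z + 1 ∧ z < x + y + z + 1 := by
      intro x y z
      omega
    have hp := fun N => (keyN N).1.lev
    refine ⟨⟨⟨fun x y => ?_, fun x => ?_, fun x y => ?_, fun x y z => ?_⟩, fun x y h => ?_⟩,
      fun l z hz => ?_⟩
    · exact (hp _).pl.le ⟨x, (lt3 x y 0).1⟩ ⟨y, (lt3 x y 0).2.1⟩
    · exact (hp _).pl.self ⟨x, Nat.lt_succ_self x⟩
    · exact (hp _).pl.sym ⟨x, (lt3 x y 0).1⟩ ⟨y, (lt3 x y 0).2.1⟩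
    · exact (hp _).pl.ult ⟨x, (lt3 x y z).1⟩ ⟨y, (lt3 x y z).2.1⟩ ⟨z, (lt3 x y z).2.2⟩
    · exact congrArg Fin.val ((hp _).eq ⟨x, (lt3 x y 0).1⟩ ⟨y, (lt3 x y 0).2.1⟩ h)
    · obtain ⟨N, z', rfl⟩ := below z
      exact Fin.val_injective.comp ((keyN N).1.irr l z' hz)
  have hC : ∀ Y ∈ F, ¬ Cop Y 𝔹 lv := by
    rintro Y hY ⟨f, hf, hf'⟩
    obtain ⟨N, f', rfl⟩ := below f
    exact (keyN N).2.1 Y hY ⟨f', fun l x hx => hf l x hx, hf'⟩
  refine ⟨𝔹, lv, ⟨⟨0⟩, inferInstance, har, hF, fun Y hY => (hI Y hY).1, ?_, hS, ?_⟩⟩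
  · rw [← hD]
    intro W _ A x y h
    obtain ⟨x', h1, h2, -⟩ := Pool.Agent.H95.CN.pf_AMD _ _ 𝔻 hK hL W A x y ∅ h
    exact ⟨x', h1, h2⟩
  · intro n 𝕏 lam
    constructor
    · rintro ⟨f, hf, hf'⟩
      have h1 : pull 𝔹 f = 𝕏 := str_ext fun l z => (hf.2 l z).symm
      have h2 : (fun a b => lv (f a) (f b)) = lam := funext fun a => funext fun b => hf' a b
      obtain ⟨h3, h4, -⟩ := key (Fin n) f hf.1
      rw [h1, h2] at h3 h4
      exact ⟨h3, h4⟩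
    · rintro ⟨h1, h2⟩
      obtain ⟨y, hy, -, hy'⟩ := hL.ext (Fin n) ∅ (fun _ => 0) (cst m 𝕏 lam)
        (fun a ha => ha.elim) ⟨𝕏, lam, h1, h2, rfl⟩ (fun l z hz => by
          exfalso
          have h3 : Nonempty (CAr τ m ((Finite.equivFin (Fin τ.m ⊕ Fin m)).symm l)) := by
            rcases (Finite.equivFin (Fin τ.m ⊕ Fin m)).symm l with l' | j
            · exact ⟨(⟨0, by have := har l'; omega⟩ : Fin (τ.ar l'))⟩
            · exact ⟨(0 : Fin 2)⟩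
          obtain ⟨a⟩ := h3
          exact hz (Finite.equivFin _ a))
      rw [hD, cst_pull] at hy'
      obtain ⟨h3, h4⟩ := cst_inj (fun _ _ => hS.lev.pl.le _ _) (fun _ _ => h1.lev.pl.le _ _) hy'
      refine ⟨y, ⟨hy, fun l z => ?_⟩, fun a b => congrFun (congrFun h4 a) b⟩
      exact (iff_of_eq (congrFun (congrFun h3 l) z)).symm

end lim

end Pool.Agent.H4.CM
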