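import Pool.Agent.H57.CM.Targets

/-!
# Row RZF of the board chm_modules: relative local completions for free classes with levels
-/

set_option autoImplicit false
set_option linter.unusedVariables false

namespace Pool.Agent.H4.CM

open Pool.Agent.H68.BP Pool.Agent.H58.SF Pool.Agent.H53.NR
open Pool.Agent.H53.GC (strOn sigOf)
open Pool.Agent.H57.AR (tp ty Ty)
open Pool.Agent.H57.LH (Hmg tp_iff)
open Pool.Agent.H72.CH Pool.Agent.H57.CM
open Function

theorem lam_congr {X : Type} {m : ℕ} {lam : X → X → ℕ} (h : PLev m lam) {x y : X}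
    (hxy : lam x y = m) (z : X) : lam x z = lam y z := by
  refine le_antisymm ?_ ?_
  · have h1 := h.ult y x z
    rw [h.sym y x, hxy, min_eq_right (h.le _ _)] at h1
    exact h1
  · have h1 := h.ult x y z
    rw [hxy, min_eq_right (h.le _ _)] at h1
    exact h1

/-- the quotient by the last relation -/
theorem quo {X : Type} [Finite X] {m : ℕ} {lam : X → X → ℕ} (h : PLev m lam) :
    ∃ (n : ℕ) (q : X → Fin n) (σ : Fin n → X) (lamn : Fin n → Fin n → ℕ), Lev m lamn ∧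
      (∀ x x', lamn (q x) (q x') = lam x x') ∧ ∀ a, q (σ a) = a := by
  let s : Setoid X :=
    { r := fun x y => lam x y = m
      iseqv := ⟨h.self, fun {x y} hxy => by rw [h.sym]; exact hxy, fun {x y z} hxy hyz => by
        have h1 := h.ult x y z
        rw [hxy, hyz, min_self] at h1
        exact le_antisymm (h.le _ _) h1⟩ }
  let ε := Finite.equivFin (Quotient s)
  let q : X → Fin (Nat.card (Quotient s)) := fun x => ε (Quotient.mk s x)
  let σ : Fin (Nat.card (Quotient s)) → X := fun a => (ε.symm a).out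
  have h1 : ∀ a, q (σ a) = a := by
    intro a
    show ε (Quotient.mk s (ε.symm a).out) = a
    rw [Quotient.out_eq, Equiv.apply_symm_apply]
  have h2 : ∀ x, lam (σ (q x)) x = m := by
    intro x
    have h3 : σ (q x) = (Quotient.mk s x).out := by
      show (ε.symm (ε (Quotient.mk s x))).out = _
      rw [Equiv.symm_apply_apply]
    rw [h3]
    exact Quotient.mk_out (s := s) x
  refine ⟨_, q, σ, fun a b => lam (σ a) (σ b), ⟨⟨fun a b => h.le _ _, fun a => h.self _,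
    fun a b => h.sym _ _, fun a b c => h.ult _ _ _⟩, fun a b hab => ?_⟩, fun x x' => ?_, h1⟩
  · rw [← h1 a, ← h1 b]
    exact congrArg ε (Quotient.sound (s := s) hab)
  · show lam (σ (q x)) (σ (q x')) = lam x x'
    rw [lam_congr h (h2 x), h.sym x, lam_congr h (h2 x'), h.sym]

/-- there are no copies in the limit -/
theorem no_cop {V : Type} {τ : Sig} {m : ℕ} {F : Set (Cnf τ)} {𝔹 : Str τ V} {lv : V → V → ℕ}
    (h : FrC m F 𝔹 lv) {Y : Cnf τ} (hY : Y ∈ F) : ¬ Cop Y 𝔹 lv := by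
  rintro ⟨g, hg, hg'⟩
  let e := Finite.equivFin (Set.range g)
  let f : Fin (Nat.card (Set.range g)) → V := fun a => (e.symm a : V)
  have h1 := ((h.age _ (pull 𝔹 f) (fun a b => lv (f a) (f b))).1
    ⟨f, ⟨fun a b hab => e.symm.injective (Subtype.ext hab), fun l x => Iff.rfl⟩,
      fun x y => rfl⟩).2 Y hY
  have h2 : ∀ v, f (e ⟨g v, v, rfl⟩) = g v := by
    intro v
    show ((e.symm (e ⟨g v, v, rfl⟩) : Set.range g) : V) = g v
    rw [Equiv.symm_apply_apply]
  refine h1 ⟨fun v => e ⟨g v, v, rfl⟩, fun l x hx => ?_, fun a b => ?_⟩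
  · show 𝔹 l (fun i => f (e ⟨g (x i), x i, rfl⟩))
    simp only [h2]
    exact hg l x hx
  · show lv (f _) (f _) = _
    rw [h2, h2]
    exact hg' a b

theorem pf_RZF (hTPC : T_TPC) : T_RZF := by
  classical
  intro τ V m F 𝔹 lv h r
  obtain ⟨K, hK⟩ := h.fin
  obtain ⟨N, hN⟩ : ∃ N : ℕ, N = ∑ l : Fin τ.m, K ^ τ.ar l := ⟨_, rfl⟩
  refine ⟨r * (N + 2) + N + 2 + K, ?_⟩
  intro X Λ _ lam z y hP hyz hloc
  have hlev : Lev m lv := h.str.lev
  obtain ⟨n, q, σ, lamn, hln, hq, hσ⟩ := quo hP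
  -- the structure on the quotient
  obtain ⟨𝕏, h𝕏⟩ : ∃ 𝕏 : Str τ (Fin n), ∀ l ζ, 𝕏 l ζ ↔ ∃ (a : Λ) (z' : Fin (τ.ar l) → Fin r),
      (∀ i, q (z a (z' i)) = ζ i) ∧ 𝔹 l (fun i => y a (z' i)) := ⟨fun l ζ => _, fun l ζ => Iff.rfl⟩
  have q_eq : ∀ x x', q x = q x' → lam x x' = m := by
    intro x x' hx
    rw [← hq, hx]
    exact hln.pl.self _
  have hstr : LStr m 𝕏 lamn := by
    refine ⟨hln, fun l ζ hζ i j hij => ?_⟩
    obtain ⟨a, z', h1, h2⟩ := (h𝕏 l ζ).1 hζ
    have h3 : q (z a (z' i)) = q (z a (z' j)) := by rw [h1, h1, hij]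
    have h4 := q_eq _ _ h3
    rw [← hyz] at h4
    exact h.str.irr l _ h2 (hlev.eq _ _ h4)
  have hcop : ∀ Y ∈ F, ¬ Cop Y 𝕏 lamn := by
    intro Y hY hc
    obtain ⟨f0, hf0, hf0'⟩ := hc
    have hk := hK Y hY
    refine no_cop h hY ?_
    -- the labels
    have h1 : ∀ p : {p : Σ l : Fin τ.m, (Fin (τ.ar l) → Fin Y.1) // Y.2.1 p.1 p.2},
        ∃ (a : Λ) (z' : Fin (τ.ar p.1.1) → Fin r),
        (∀ i, q (z a (z' i)) = f0 (p.1.2 i)) ∧ 𝔹 p.1.1 (fun i => y a (z' i)) :=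
      fun p => (h𝕏 _ _).1 (hf0 _ _ p.2)
    choose A Z hZ hZ' using h1
    obtain ⟨L, hL⟩ : ∃ L : Finset Λ, L = Finset.univ.image A := ⟨_, rfl⟩
    obtain ⟨U, hU⟩ : ∃ U : Finset X, U = (L ×ˢ (Finset.univ : Finset (Fin r))).image
      (fun p => z p.1 p.2) ∪ Finset.univ.image (fun v => σ (f0 v)) := ⟨_, rfl⟩
    have cL : L.card ≤ N := by
      rw [hL]
      refine Finset.card_image_le.trans ?_
      rw [Finset.card_univ]
      refine (Fintype.card_subtype_le _).trans ?_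
      rw [Fintype.card_sigma, hN]
      refine Finset.sum_le_sum fun l _ => ?_
      rw [Fintype.card_fun, Fintype.card_fin, Fintype.card_fin]
      exact Nat.pow_le_pow_left hk _
    have cU : U.card ≤ N * r + K := by
      rw [hU]
      refine (Finset.card_union_le _ _).trans (Nat.add_le_add ?_ ?_)
      · refine Finset.card_image_le.trans ?_
        rw [Finset.card_product, Finset.card_univ, Fintype.card_fin]
        exact Nat.mul_le_mul_right _ cL
      · refine Finset.card_image_le.trans ?_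
        rw [Finset.card_univ, Fintype.card_fin]
        exact hk
    obtain ⟨g, hg, hg'⟩ := hloc U L (by nlinarith) (by nlinarith)
    have mL : ∀ p, A p ∈ L := fun p => by
      rw [hL]
      exact Finset.mem_image_of_mem _ (Finset.mem_univ _)
    have mU : ∀ a ∈ L, ∀ i, z a i ∈ U := fun a ha i => by
      rw [hU]
      exact Finset.mem_union_left _ (Finset.mem_image.2 ⟨(a, i), Finset.mem_product.2
        ⟨ha, Finset.mem_univ _⟩, rfl⟩)
    have mU' : ∀ v, σ (f0 v) ∈ U := fun v => by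
      rw [hU]
      exact Finset.mem_union_right _ (Finset.mem_image_of_mem _ (Finset.mem_univ _))
    have hgl : ∀ a ∈ L, tp 𝔹 (fun i => g (z a i)) = tp 𝔹 (y a) ∧
        ∀ i j, lv (g (z a i)) (g (z a j)) = lv (y a i) (y a j) := fun a ha =>
      (hTPC τ V (Fin r) m 𝔹 lv hlev _ _).1 (hg' a ha)
    have hcl : ∀ p i, g (z (A p) (Z p i)) = g (σ (f0 (p.1.2 i))) := by
      intro p i
      have h2 : lam (z (A p) (Z p i)) (σ (f0 (p.1.2 i))) = m := q_eq _ _ (by rw [hZ, hσ])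
      have h3 := hg _ (mU _ (mL p) (Z p i)) _ (mU' (p.1.2 i))
      rw [h2] at h3
      exact hlev.eq _ _ (le_antisymm (hlev.pl.le _ _) h3)
    refine ⟨fun v => g (σ (f0 v)), fun l ζ hζ => ?_, fun v v' => ?_⟩
    · have h2 := (tp_iff.1 (hgl _ (mL ⟨⟨l, ζ⟩, hζ⟩)).1).2 l (Z ⟨⟨l, ζ⟩, hζ⟩)
      have h3 := h2.2 (hZ' ⟨⟨l, ζ⟩, hζ⟩)
      have h4 : (fun i => g (z (A ⟨⟨l, ζ⟩, hζ⟩) (Z ⟨⟨l, ζ⟩, hζ⟩ i))) =
          fun i => g (σ (f0 (ζ i))) := funext fun i => hcl ⟨⟨l, ζ⟩, hζ⟩ i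
      rw [← h4]
      exact h3
    · by_cases hv : v = v'
      · rw [hv, ← hf0', hlev.pl.self, hln.pl.self]
      · obtain ⟨l, ζ, i, j, hζ, hi, hj⟩ := h.ird Y hY v v' hv
        have h2 := hcl ⟨⟨l, ζ⟩, hζ⟩ i
        have h3 := hcl ⟨⟨l, ζ⟩, hζ⟩ j
        have h4 := (hgl _ (mL ⟨⟨l, ζ⟩, hζ⟩)).2 (Z ⟨⟨l, ζ⟩, hζ⟩ i) (Z ⟨⟨l, ζ⟩, hζ⟩ j)
        rw [h2, h3, hyz, ← hq, hZ, hZ, hf0'] at h4
        simp only [hi, hj] at h4
        exact h4
  obtain ⟨f', hf', hf''⟩ := (h.age n 𝕏 lamn).2 ⟨hstr, hcop⟩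
  have hfl : ∀ x x', lv (f' (q x)) (f' (q x')) = lam x x' := fun x x' => by rw [hf'', hq]
  refine ⟨fun x => f' (q x), hfl, fun a => ?_⟩
  refine (hTPC τ V (Fin r) m 𝔹 lv hlev _ _).2 ⟨tp_iff.2 ⟨fun i j => ?_, fun l z' => ?_⟩,
    fun i j => ?_⟩
  · constructor
    · intro h1
      have h2 := hfl (z a i) (z a j)
      have h3 : f' (q (z a i)) = f' (q (z a j)) := h1
      rw [h3, hlev.pl.self, ← hyz] at h2
      exact hlev.eq _ _ h2.symm
    · intro h1
      have h2 := hyz a i j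
      rw [h1, hlev.pl.self, ← hfl] at h2
      exact hlev.eq _ _ h2.symm
  · rw [← hf'.2 l (fun i => q (z a (z' i))), h𝕏]
    constructor
    · rintro ⟨b, z'', h1, h2⟩
      obtain ⟨U, hU⟩ : ∃ U : Finset X, U = (({a, b} : Finset Λ) ×ˢ
        (Finset.univ : Finset (Fin r))).image (fun p => z p.1 p.2) := ⟨_, rfl⟩
      have cL : ({a, b} : Finset Λ).card ≤ 2 := Finset.card_le_two
      have cU : U.card ≤ 2 * r := by
        rw [hU]
        refine Finset.card_image_le.trans ?_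
        rw [Finset.card_product, Finset.card_univ, Fintype.card_fin]
        exact Nat.mul_le_mul_right _ cL
      obtain ⟨g, hg, hg'⟩ := hloc U {a, b} (by nlinarith) (by nlinarith)
      have mU : ∀ c ∈ ({a, b} : Finset Λ), ∀ i, z c i ∈ U := fun c hc i => by
        rw [hU]
        exact Finset.mem_image.2 ⟨(c, i), Finset.mem_product.2 ⟨hc, Finset.mem_univ _⟩, rfl⟩
      have ma : a ∈ ({a, b} : Finset Λ) := by simp
      have mb : b ∈ ({a, b} : Finset Λ) := by simp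
      have h3 := (hTPC τ V (Fin r) m 𝔹 lv hlev _ _).1 (hg' a ma)
      have h4 := (hTPC τ V (Fin r) m 𝔹 lv hlev _ _).1 (hg' b mb)
      have h5 : (fun i => g (z b (z'' i))) = fun i => g (z a (z' i)) := by
        funext i
        have h6 := hg _ (mU b mb (z'' i)) _ (mU a ma (z' i))
        rw [q_eq _ _ (h1 i)] at h6
        exact hlev.eq _ _ (le_antisymm (hlev.pl.le _ _) h6)
      have h6 := ((tp_iff.1 h4.1).2 l z'').2 h2
      rw [h5] at h6
      exact ((tp_iff.1 h3.1).2 l z').1 h6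
    · intro h1
      exact ⟨a, z', fun i => rfl, h1⟩
  · show lv (f' (q (z a i))) (f' (q (z a j))) = _
    rw [hfl, hyz]

end Pool.Agent.H4.CM
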